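import Pool.Agent.W2helper62.HtCyc

set_option autoImplicit false

/-!
# The maximal height of the divisors of `x ^ (p q ^ b) - 1` is divisible by `p`

For all primes `p < q` and every `b ≥ 1` the number `B(p q ^ b)` is divisible by `p`. (For `p = 2` this is true, too.)

Proof. A divisor of `x ^ n - 1`, `n = p q ^ b`, is up to the sign a product `P(x) g(x ^ q)`, where `P` is a product of
some of `Φ_1, Φ_p, Φ_q, Φ_{pq}` and `g` is a product of some of the `Φ_d`, `d ∣ p q ^ (b - 1)`, `q ∣ d`. Let `A` be the
largest height of all these `g`.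

* Lower bound: for `P = Φ_p Φ_q` the coefficients of `Φ_q(x) g(x ^ q)` are constant on blocks of `q > p` consecutive
exponents, so the height of `P(x) g(x ^ q)` is at least `p A`.

* Upper bound: for each of the sixteen products `P` the height of `P(x) g(x ^ q)` is at most `p A`. The only case which
is not immediate is `P = (x - 1) Φ_{pq}`: the coefficient of `x ^ j` is `- (S(k_j) - 2 S(k_{j-1}) + S(k_{j-2}))`, where
`S` is the function of the partial sums of the coefficients of `g`, and `k_j = (j - p i_j) / q` with `0 ≤ i_j < q`,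
`p i_j ≡ j (mod q)`; and `|k_j - k_{j-1}| + |k_{j-1} - k_{j-2}| ≤ p`.

So `B(p q ^ b) = p A`.
-/

namespace Pool.Agent.Results.MP_b384de_nt.DivisibleByP

open Polynomial Finset
open Pool.Agent.W2helper62.Ht

/-- The height of an integer polynomial: the largest absolute value of a coefficient. -/
def height (f : ℤ[X]) : ℕ := f.support.sup (fun i => (f.coeff i).natAbs)

/-- The set of the heights of the divisors of `x ^ n - 1` in `ℤ[x]`. -/
def heights (n : ℕ) : Set ℕ := {h : ℕ | ∃ f : ℤ[X], f ∣ X ^ n - 1 ∧ height f = h}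

/-- `B(n)`, the largest height of a divisor of `x ^ n - 1` in `ℤ[x]`. -/
noncomputable def B (n : ℕ) : ℕ := sSup (heights n)

lemma le_height (f : ℤ[X]) (i : ℕ) : (f.coeff i).natAbs ≤ height f := by
  by_cases h : i ∈ f.support
  · exact le_sup (f := fun i => (f.coeff i).natAbs) h
  · rw [notMem_support_iff.1 h]
    simp

lemma height_le {f : ℤ[X]} {A : ℕ} (h : Bd A f) : height f ≤ A := by
  unfold height
  rw [Finset.sup_le_iff]
  intro i _
  have h1 := h i
  rw [Int.abs_eq_natAbs] at h1
  exact_mod_cast h1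

lemma bd_height (f : ℤ[X]) : Bd (height f) f := by
  intro i
  rw [Int.abs_eq_natAbs]
  exact_mod_cast le_height f i

lemma exists_coeff (f : ℤ[X]) (hf : f ≠ 0) : ∃ i, (f.coeff i).natAbs = height f := by
  have h1 : f.support.Nonempty := by rwa [nonempty_support_iff]
  obtain ⟨i, _, hi⟩ := exists_mem_eq_sup f.support h1 (fun i => (f.coeff i).natAbs)
  exact ⟨i, hi.symm⟩

/-- the divisors of a product of primes of a ring -/
lemma exists_subset {R ι : Type*} [CommRing R] [IsDomain R] [DecidableEq ι] (π : ι → R) (s : Finset ι)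
    (hπ : ∀ i ∈ s, Prime (π i)) (f : R) (hf : f ∣ ∏ i ∈ s, π i) :
    ∃ t ⊆ s, Associated f (∏ i ∈ t, π i) := by
  induction s using Finset.induction_on generalizing f with
  | empty =>
    refine ⟨∅, subset_rfl, ?_⟩
    rw [prod_empty] at hf ⊢
    exact associated_one_iff_isUnit.2 (isUnit_of_dvd_one hf)
  | insert a s ha ih =>
    have hπa := hπ a (mem_insert_self a s)
    have hπs : ∀ i ∈ s, Prime (π i) := fun i hi => hπ i (mem_insert_of_mem hi)
    rw [prod_insert ha] at hf
    by_cases h1 : π a ∣ f
    · obtain ⟨f', rfl⟩ := h1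
      have h2 := (mul_dvd_mul_iff_left hπa.ne_zero).1 hf
      obtain ⟨t, ht, hft⟩ := ih hπs f' h2
      refine ⟨insert a t, insert_subset_insert a ht, ?_⟩
      rw [prod_insert (fun h => ha (ht h))]
      exact hft.mul_left (π a)
    · obtain ⟨g, hg⟩ := hf
      have h2 : π a ∣ f * g := ⟨_, hg.symm⟩
      rcases hπa.dvd_or_dvd h2 with h3 | h3
      · exact absurd h3 h1
      · obtain ⟨g', rfl⟩ := h3
        have h4 : ∏ i ∈ s, π i = f * g' := by
          apply mul_left_cancel₀ hπa.ne_zero
          rw [hg]
          ring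
        obtain ⟨t, ht, hft⟩ := ih hπs f ⟨g', h4⟩
        exact ⟨t, ht.trans (subset_insert a s), hft⟩

lemma bd_of_associated {A : ℤ} {f g : ℤ[X]} (h : Associated f g) (hg : Bd A g) : Bd A f := by
  obtain ⟨u, hu⟩ := h.symm
  obtain ⟨r, hr, hru⟩ := Polynomial.isUnit_iff.1 u.isUnit
  rw [← hu, ← hru]
  intro i
  rw [coeff_mul_C, abs_mul]
  rcases Int.isUnit_iff.1 hr with h | h <;> rw [h] <;> simpa using hg i

/-- products of cyclotomic polynomials -/
noncomputable def Cy (t : Finset ℕ) : ℤ[X] := ∏ d ∈ t, cyclotomic d ℤ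

/-- the indices of the cyclotomic factors of `g` -/
def D (p q c : ℕ) : Finset ℕ := (p * q ^ c).divisors.filter (fun d => q ∣ d)

lemma dvd_cases {p q c d : ℕ} (hp : p.Prime) (hq : q.Prime) (hd : d ∣ p * q ^ (c + 1)) :
    d ∈ ({1, p, q, p * q} : Finset ℕ) ∨ ∃ d' ∈ D p q c, d = d' * q := by
  obtain ⟨d₁, d₂, h1, h2, rfl⟩ := (Nat.dvd_mul).1 hd
  obtain ⟨i, hi, rfl⟩ := (Nat.dvd_prime_pow hq).1 h2
  rcases i with _ | _ | i
  · left
    rcases (Nat.dvd_prime hp).1 h1 with rfl | rfl <;> simp
  · left
    rcases (Nat.dvd_prime hp).1 h1 with rfl | rfl <;> simp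
  · right
    refine ⟨d₁ * q ^ (i + 1), ?_, by ring⟩
    unfold D
    rw [mem_filter, Nat.mem_divisors]
    refine ⟨⟨Nat.mul_dvd_mul h1 (pow_dvd_pow q (by omega)), ?_⟩, ?_⟩
    · exact mul_ne_zero hp.ne_zero (pow_ne_zero _ hq.ne_zero)
    · exact Dvd.dvd.mul_left (dvd_pow_self q (by omega)) d₁

lemma not_mem_four {p q d : ℕ} (hp : p.Prime) (hq : q.Prime) (hpq : p < q) (hd : q ∣ d) :
    d * q ∉ ({1, p, q, p * q} : Finset ℕ) := by
  obtain ⟨e, rfl⟩ := hd
  have h2 := hq.two_le
  intro h
  simp only [mem_insert, mem_singleton] at h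
  rcases Nat.eq_zero_or_pos e with rfl | he
  · have := hp.pos
    rcases h with h | h | h | h
    · simp at h
    · simp at h; omega
    · simp at h; omega
    · simp at h
      rcases h with h | h <;> omega
  · have h3 : q * q ≤ q * e * q := by nlinarith
    rcases h with h | h | h | h
    · nlinarith
    · nlinarith
    · nlinarith
    · nlinarith

/-- the decomposition of the products -/
lemma Cy_eq {p q c : ℕ} (hp : p.Prime) (hq : q.Prime) (hpq : p < q) (t : Finset ℕ)
    (ht : t ⊆ (p * q ^ (c + 1)).divisors) :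
    Cy t = ((if 1 ∈ t then cyclotomic 1 ℤ else 1) * ((if p ∈ t then cyclotomic p ℤ else 1) *
      ((if q ∈ t then cyclotomic q ℤ else 1) * (if p * q ∈ t then cyclotomic (p * q) ℤ else 1)))) *
      expand ℤ q (Cy ((D p q c).filter (fun d => d * q ∈ t))) := by
  have h2p := hp.two_le
  have h2q := hq.two_le
  have h1 : Cy t = Cy (t.filter (fun d => d ∈ ({1, p, q, p * q} : Finset ℕ))) *
      Cy (t.filter (fun d => d ∉ ({1, p, q, p * q} : Finset ℕ))) := by
    unfold Cy
    rw [prod_filter_mul_prod_filter_not]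
  rw [h1]
  congr 1
  · have h3 : t.filter (fun d => d ∈ ({1, p, q, p * q} : Finset ℕ)) =
        ({1, p, q, p * q} : Finset ℕ).filter (fun d => d ∈ t) := by
      ext d
      rw [mem_filter, mem_filter, and_comm]
    unfold Cy
    rw [h3, prod_filter, prod_insert, prod_insert, prod_insert, prod_singleton]
    · rw [mem_singleton]
      intro h
      have : q * 1 = q * p := by rw [mul_one, mul_comm]; exact h
      have := mul_left_cancel₀ (by omega) this
      omega
    · rw [mem_insert, mem_singleton]
      rintro (h | h)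
      · omega
      · have : p * 1 = p * q := by rw [mul_one]; exact h
        have := mul_left_cancel₀ (by omega) this
        omega
    · rw [mem_insert, mem_insert, mem_singleton]
      rintro (h | h | h)
      · omega
      · omega
      · nlinarith
  · have h3 : t.filter (fun d => d ∉ ({1, p, q, p * q} : Finset ℕ)) =
        ((D p q c).filter (fun d => d * q ∈ t)).image (fun d => d * q) := by
      ext d
      rw [mem_filter, mem_image]
      constructor
      · rintro ⟨h4, h5⟩
        rcases dvd_cases hp hq (Nat.dvd_of_mem_divisors (ht h4)) with h6 | ⟨d', h6, rfl⟩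
        · exact absurd h6 h5
        · exact ⟨d', mem_filter.2 ⟨h6, h4⟩, rfl⟩
      · rintro ⟨d', h4, rfl⟩
        rw [mem_filter] at h4
        refine ⟨h4.2, not_mem_four hp hq hpq ?_⟩
        have := h4.1
        unfold D at this
        exact (mem_filter.1 this).2
    unfold Cy
    rw [h3, prod_image, map_prod]
    · refine prod_congr rfl fun d hd => ?_
      rw [mem_filter] at hd
      have := hd.1
      unfold D at this
      rw [cyclotomic_expand_eq_cyclotomic hq (mem_filter.1 this).2]
    · intro x _ y _ hxy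
      exact Nat.eq_of_mul_eq_mul_right (by omega) hxy

/-- `A`, the largest height of the products `g` -/
noncomputable def A (p q c : ℕ) : ℕ := (D p q c).powerset.sup (fun t => height (Cy t))

lemma Cy_ne_zero (t : Finset ℕ) : Cy t ≠ 0 := by
  unfold Cy
  rw [prod_ne_zero_iff]
  intro d _
  exact cyclotomic_ne_zero d ℤ

theorem isGreatest {p q c : ℕ} (hp : p.Prime) (hq : q.Prime) (hpq : p < q) :
    IsGreatest (heights (p * q ^ (c + 1))) (p * A p q c) := by
  have h2p := hp.two_le
  have h2q := hq.two_le
  have hn : 0 < p * q ^ (c + 1) := Nat.mul_pos hp.pos (pow_pos hq.pos _)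
  have hprod : ∏ d ∈ (p * q ^ (c + 1)).divisors, cyclotomic d ℤ = X ^ (p * q ^ (c + 1)) - 1 :=
    prod_cyclotomic_eq_X_pow_sub_one hn ℤ
  -- the upper bound
  have upper : ∀ f : ℤ[X], f ∣ X ^ (p * q ^ (c + 1)) - 1 → Bd ((p * A p q c : ℕ) : ℤ) f := by
    intro f hf
    rw [← hprod] at hf
    obtain ⟨t, ht, hft⟩ := exists_subset (fun d => cyclotomic d ℤ) _ (fun d hd =>
      (cyclotomic.irreducible (Nat.pos_of_mem_divisors hd)).prime) f hf
    apply bd_of_associated hft
    have h1 := Cy_eq hp hq hpq t ht
    unfold Cy at h1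
    rw [h1]
    have h2 : Bd (A p q c : ℤ) (Cy ((D p q c).filter (fun d => d * q ∈ t))) := by
      apply (bd_height _).mono
      have : height (Cy ((D p q c).filter (fun d => d * q ∈ t))) ≤ A p q c :=
        le_sup (f := fun t => height (Cy t)) (mem_powerset.2 (filter_subset _ _))
      exact_mod_cast this
    have h3 := bd_all hp hq hpq h2 (1 ∈ t) (p ∈ t) (q ∈ t) (p * q ∈ t)
    push_cast
    exact h3
  constructor
  · -- the lower bound
    obtain ⟨t, ht, hAt⟩ := exists_mem_eq_sup (D p q c).powerset ⟨∅, by simp⟩ (fun t => height (Cy t))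
    rw [mem_powerset] at ht
    obtain ⟨k, hk⟩ := exists_coeff (Cy t) (Cy_ne_zero t)
    have hAk : A p q c = ((Cy t).coeff k).natAbs := by rw [hk]; exact hAt
    have hdvd : cyclotomic p ℤ * (cyclotomic q ℤ * expand ℤ q (Cy t)) ∣ X ^ (p * q ^ (c + 1)) - 1 := by
      rw [← hprod]
      have h4 : cyclotomic p ℤ * (cyclotomic q ℤ * expand ℤ q (Cy t)) =
          Cy (insert p (insert q (t.image (fun d => d * q)))) := by
        have hq4 : q ∉ t.image (fun d => d * q) := by
          rw [mem_image]
          rintro ⟨d, hd, hdq⟩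
          have h5 := ht hd
          unfold D at h5
          exact not_mem_four hp hq hpq (mem_filter.1 h5).2 (by rw [hdq]; simp)
        have hp4 : p ∉ insert q (t.image (fun d => d * q)) := by
          rw [mem_insert, mem_image]
          rintro (h | ⟨d, hd, hdq⟩)
          · omega
          · have h5 := ht hd
            unfold D at h5
            exact not_mem_four hp hq hpq (mem_filter.1 h5).2 (by rw [hdq]; simp)
        unfold Cy
        rw [prod_insert hp4, prod_insert hq4, prod_image, map_prod]
        · congr 2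
          refine prod_congr rfl fun d hd => ?_
          have h5 := ht hd
          unfold D at h5
          rw [cyclotomic_expand_eq_cyclotomic hq (mem_filter.1 h5).2]
        · intro x _ y _ hxy
          exact Nat.eq_of_mul_eq_mul_right (by omega) hxy
      rw [h4]
      unfold Cy
      apply prod_dvd_prod_of_subset
      intro d hd
      rw [mem_insert, mem_insert, mem_image] at hd
      rw [Nat.mem_divisors]
      refine ⟨?_, hn.ne'⟩
      rcases hd with rfl | rfl | ⟨d', hd', rfl⟩
      · exact Dvd.intro _ rfl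
      · exact Dvd.dvd.mul_left (dvd_pow_self _ (by omega)) p
      · have h5 := ht hd'
        unfold D at h5
        have h6 := Nat.dvd_of_mem_divisors (mem_filter.1 h5).1
        rw [pow_succ, ← mul_assoc]
        exact Nat.mul_dvd_mul_right h6 q
    refine ⟨_, hdvd, le_antisymm (height_le (upper _ hdvd)) ?_⟩
    have h5 := coeff_block hp hq hpq (Cy t) k
    have h6 := le_height (cyclotomic p ℤ * (cyclotomic q ℤ * expand ℤ q (Cy t))) (q * k + (q - 1))
    rw [h5, Int.natAbs_mul, Int.natAbs_natCast, ← hAk] at h6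
    exact h6
  · rintro h ⟨f, hf, rfl⟩
    exact height_le (upper f hf)

/-- **The maximal height of the divisors of `x ^ (p q ^ b) - 1` is divisible by `p`.** Let `p < q` be primes and
`b ≥ 1`. The number `B (p q ^ b)` is the largest height of a divisor of `x ^ (p q ^ b) - 1` in `ℤ[x]` (this part
says that the supremum in the definition of `B` is a maximum), and it is divisible by `p`. -/
theorem result (p q b : ℕ) (hp : p.Prime) (hq : q.Prime) (hpq : p < q) (hb : 1 ≤ b) :
    IsGreatest {h : ℕ | ∃ f : ℤ[X], f ∣ X ^ (p * q ^ b) - 1 ∧ height f = h} (B (p * q ^ b)) ∧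
      p ∣ B (p * q ^ b) := by
  obtain ⟨c, rfl⟩ : ∃ c, b = c + 1 := ⟨b - 1, by omega⟩
  have h := isGreatest (c := c) hp hq hpq
  have h2 : B (p * q ^ (c + 1)) = p * A p q c := h.csSup_eq
  rw [h2]
  exact ⟨h, Dvd.intro _ rfl⟩

end Pool.Agent.Results.MP_b384de_nt.DivisibleByP
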